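import Mathlib
import Pool.Agent.Lib.MP_87d05f_lc.FindT

set_option autoImplicit false

/-!
# Two given machines, one after the other

`seq_find`, `seq_sep`: a machine that computes a word `w` from the input, followed by a search
machine or a separator applied to the query `f (x, w)`.
-/

namespace Pool.Agent.Lib.MP_87d05f_lc

open Pool.Agent.PolyTime Function Turing Polynomial

/-! ### Renaming stacks along an injective map -/

section rn

variable {K L : Type} [DecidableEq K] [DecidableEq L]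

theorem extend_update {i : K → L} (hi : Injective i) (S : K → List Bool) (g : L → List Bool)
    (k : K) (v : List Bool) : update (extend i S g) (i k) v = extend i (update S k v) g := by
  funext l
  by_cases h : ∃ k', i k' = l
  · obtain ⟨k', rfl⟩ := h
    rw [hi.extend_apply]
    by_cases hk : k' = k
    · subst hk
      rw [update_self, update_self]
    · rw [update_of_ne (fun h => hk (hi h)), update_of_ne hk, hi.extend_apply]
  · rw [update_of_ne (fun h' => h ⟨k, h'.symm⟩), extend_apply' _ _ _ h, extend_apply' _ _ _ h]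

theorem run_map {i : K → L} (hi : Injective i) {c : Cmd K} {S S' : K → List Bool} {t : ℕ}
    (h : Run c S S' t) (g : L → List Bool) :
    Run (mapCmd i c) (extend i S g) (extend i S' g) t := by
  induction h with
  | skip S => exact .skip _
  | push S k b =>
    have := Run.push (extend i S g) (i k) b
    rw [extend_update hi, hi.extend_apply] at this
    exact this
  | seq _ _ ih₁ ih₂ => exact .seq ih₁ ih₂
  | pop_none hk _ ih => exact .pop_none (by rw [hi.extend_apply]; exact hk) ih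
  | @pop_false k cn cf ct S S' t l hk _ ih =>
    refine .pop_false (k := i k) (l := l) (by rw [hi.extend_apply]; exact hk) ?_
    rw [extend_update hi]
    exact ih
  | @pop_true k cn cf ct S S' t l hk _ ih =>
    refine .pop_true (k := i k) (l := l) (by rw [hi.extend_apply]; exact hk) ?_
    rw [extend_update hi]
    exact ih
  | loopB_none hk => exact .loopB_none (by rw [hi.extend_apply]; exact hk)
  | @loopB_false k cf ct S S' S'' t t' l hk _ _ ih₁ ih₂ =>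
    refine .loopB_false (k := i k) (l := l) (by rw [hi.extend_apply]; exact hk) ?_ ih₂
    rw [extend_update hi]
    exact ih₁
  | @loopB_true k cf ct S S' S'' t t' l hk _ _ ih₁ ih₂ =>
    refine .loopB_true (k := i k) (l := l) (by rw [hi.extend_apply]; exact hk) ?_ ih₂
    rw [extend_update hi]
    exact ih₁
  | loopT_none hk => exact .loopT_none (by rw [hi.extend_apply]; exact hk)
  | @loopT_false k c S l hk =>
    have := Run.loopT_false (k := i k) (c := mapCmd i c) (S := extend i S g) (l := l)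
      (by rw [hi.extend_apply]; exact hk)
    rw [extend_update hi] at this
    exact this
  | @loopT_true k c S S' S'' t t' l hk _ _ ih₁ ih₂ =>
    refine .loopT_true (k := i k) (l := l) (by rw [hi.extend_apply]; exact hk) ?_ ih₂
    rw [extend_update hi]
    exact ih₁

theorem RunLe.map {i : K → L} (hi : Injective i) {c : Cmd K} {S S' : K → List Bool} {n : ℕ}
    (h : RunLe c S S' n) (g : L → List Bool) :
    RunLe (mapCmd i c) (extend i S g) (extend i S' g) n := by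
  obtain ⟨t, ht, h⟩ := h
  exact ⟨t, ht, run_map hi h g⟩

end rn

/-! ### Programs that answer queries -/

/-- a program with working stacks `K` answers the queries with `A` -/
def Callable (K : Type) [DecidableEq K] {α : Type} [SCode α] (A : List Bool → ℕ → α) : Prop :=
  ∃ (cc : Cmd (KK K)) (κ : ℕ), ∀ (x : List Bool) (N h : ℕ) (r : List Bool),
    RunLe cc (full (stk (true :: ((enc (x, (N, h))).bits ++ r)) [] [] []) (fun _ => [])
        (ctk [] [] [] [] []))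
      (full (stk (true :: ((enc (A x (N * 2 ^ h))).bits ++ r)) [] [] []) (fun _ => [])
        (ctk [] [] [] [] []))
      (κ * ((x.length + 1) + (N + 1) * (2 ^ h * (h + 1))))

theorem Callable.map {K K' : Type} [DecidableEq K] [DecidableEq K'] {α : Type} [SCode α]
    {A : List Bool → ℕ → α} {j : K → K'} (hj : Injective j) (h : Callable K A) :
    Callable K' A := by
  obtain ⟨cc, κ, hcc⟩ := h
  set i : KK K → KK K' := Sum.map (Sum.map id (Sum.map j id)) id with hi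
  have hinj : Injective i := by
    rw [hi]
    exact Sum.map_injective.2 ⟨Sum.map_injective.2 ⟨injective_id,
      Sum.map_injective.2 ⟨hj, injective_id⟩⟩, injective_id⟩
  have hfull : ∀ (st : St → List Bool) (ct : Ct → List Bool),
      extend i (full st (fun _ => []) ct) (fun _ => []) = full st (fun _ => []) ct := by
    intro st ct
    funext l
    rcases l with (a | (k | a)) | a
    · exact hinj.extend_apply _ _ (.inl (.inl a))
    · by_cases hk : ∃ z, i z = .inl (.inr (.inl k))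
      · obtain ⟨z, hz⟩ := hk
        rw [← hz, hinj.extend_apply]
        rcases z with (z | (z | z)) | z
        · simp [hi] at hz
        · rw [hz]
          rfl
        · simp [hi] at hz
        · simp [hi] at hz
      · rw [extend_apply' _ _ _ hk]
        rfl
    · exact hinj.extend_apply _ _ (.inl (.inr (.inr a)))
    · exact hinj.extend_apply _ _ (.inr a)
  refine ⟨mapCmd i cc, κ, fun x N h r => ?_⟩
  have h1 := RunLe.map hinj (hcc x N h r) (fun _ => [])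
  rw [hfull, hfull] at h1
  exact h1

/-- Two calls, with programs before, between and after. -/
theorem two_calls {K₁ K₂ : Type} [DecidableEq K₁] [DecidableEq K₂] [Fintype K₁] [Fintype K₂]
    {α β : Type} [SCode α] [SCode β] {A₁ : List Bool → ℕ → α} {A₂ : List Bool → ℕ → β}
    (h₁ : Callable K₁ A₁) (h₂ : Callable K₂ A₂) {q₁ : List Bool → Qry}
    {q₂ : α × List Bool → Qry} {out : β × (α × List Bool) → List Bool} (hq₁ : PTime q₁)
    (hq₂ : PTime q₂) (ho : PTime out) :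
    ∃ (tm' : FinTM2) (e₀' : tm'.Γ tm'.k₀ ≃ Bool) (e₁' : tm'.Γ tm'.k₁ ≃ Bool)
      (P : Polynomial ℕ) (κ : ℕ), ∀ (x : List Bool) (a : α) (b : β) (B m : ℕ),
        a = A₁ (q₁ x).1 ((q₁ x).2.1 * 2 ^ (q₁ x).2.2) →
        b = A₂ (q₂ (a, x)).1 ((q₂ (a, x)).2.1 * 2 ^ (q₂ (a, x)).2.2) → sz a ≤ B → sz b ≤ B →
        P.eval (x.length + B) + κ * (qcost (q₁ x) + qcost (q₂ (a, x))) ≤ m →
        Nonempty (TM2OutputsInTime tm' (x.map e₀'.symm)
          (some ((out (b, (a, x))).map e₁'.symm)) m) := by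
  obtain ⟨cc₁, κ₁, hcc₁⟩ := h₁.map (j := (Sum.inl : K₁ → K₁ ⊕ K₂)) Sum.inl_injective
  obtain ⟨cc₂, κ₂, hcc₂⟩ := h₂.map (j := (Sum.inr : K₂ → K₁ ⊕ K₂)) Sum.inr_injective
  have hq₁' : PTime (fun x : List Bool => (q₁ x, x)) := hq₁.pair PTime.id
  obtain ⟨c₁, P₁, hc₁⟩ := ptime_cmd hq₁'
  have hq₂' : PTime (fun p : α × List Bool => (q₂ p, p)) := hq₂.pair PTime.id
  obtain ⟨c₂, P₂, hc₂⟩ := ptime_cmd hq₂'
  obtain ⟨co, Po, hco⟩ := ptime_cmd ho
  obtain ⟨Pz, hPz⟩ := ho.sz_le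
  set up : Cmd St → Cmd (KK (K₁ ⊕ K₂)) := fun c => mapCmd Sum.inl (mapCmd Sum.inl c) with hup
  set c : Cmd (KK (K₁ ⊕ K₂)) := .seq (up convCmd) (.seq (up c₁) (.seq cc₁ (.seq (up c₂)
    (.seq cc₂ (.seq (up co) (up decCmd)))))) with hc
  refine ⟨(Flow.compile c).toTM (.inl (.inl .A)) (.inl (.inl .A)), Equiv.refl _, Equiv.refl _,
    C 7 * X + C 20 + P₁.comp (C 4 * X + C 4) + P₂.comp (C 4 * X + C 4) +
      Po.comp (C 4 * X + C 4) + C 7 * Pz.comp (C 4 * X + C 4), κ₁ + κ₂, ?_⟩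
  intro x a b B m ha hb haB hbB hm
  have r1 := run_st (K := K₁ ⊕ K₂) (run_conv x)
  have r2 := run_st (K := K₁ ⊕ K₂) (hc₁ x)
  have r3 := hcc₁ (q₁ x).1 (q₁ x).2.1 (q₁ x).2.2 (enc x).bits
  rw [← ha] at r3
  have r4 := run_st (K := K₁ ⊕ K₂) (hc₂ (a, x))
  have r5 := hcc₂ (q₂ (a, x)).1 (q₂ (a, x)).2.1 (q₂ (a, x)).2.2 (enc (a, x)).bits
  rw [← hb] at r5
  have r6 := run_st (K := K₁ ⊕ K₂) (hco (b, (a, x)))
  have r7 := run_st (K := K₁ ⊕ K₂) (run_dec (out (b, (a, x))))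
  have e1 : (enc (q₁ x, x)).bits = true :: ((enc (q₁ x)).bits ++ (enc x).bits) := by
    simp [Sx.bits]
  have e2 : (enc (a, x)).bits = true :: ((enc a).bits ++ (enc x).bits) := by
    simp [Sx.bits]
  have e3 : (enc (q₂ (a, x), (a, x))).bits =
      true :: ((enc (q₂ (a, x))).bits ++ (enc (a, x)).bits) := rfl
  have e4 : (enc (b, (a, x))).bits = true :: ((enc b).bits ++ (enc (a, x)).bits) := rfl
  rw [e1] at r2
  rw [← e2] at r3
  rw [e3] at r4
  rw [← e4] at r5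
  have hrun := RunLe.seq r1 (RunLe.seq r2 (RunLe.seq r3 (RunLe.seq r4 (RunLe.seq r5
    (RunLe.seq r6 r7)))))
  obtain ⟨t, ht, hrun⟩ := hrun
  have hx := sz_listBool_le x
  have hsz1 : sz x ≤ 4 * (x.length + B) + 4 := by omega
  have hsz2 : sz ((a, x) : α × List Bool) ≤ 4 * (x.length + B) + 4 := by
    rw [sz_pair]
    omega
  have hsz3 : sz ((b, (a, x)) : β × (α × List Bool)) ≤ 4 * (x.length + B) + 4 := by
    rw [sz_pair, sz_pair]
    omega
  have hlen : (out (b, (a, x))).length ≤ Pz.eval (4 * (x.length + B) + 4) := by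
    have h6 := (length_le_sz _).trans ((hPz (b, (a, x))).trans (eval_mono Pz hsz3))
    omega
  have hb1 : t + 1 ≤ m := by
    refine le_trans ?_ hm
    have g1 := eval_mono P₁ hsz1
    have g2 := eval_mono P₂ hsz2
    have g3 := eval_mono Po hsz3
    simp only [eval_add, eval_mul, eval_C, eval_X, eval_comp]
    have g4 : κ₁ * (((q₁ x).1.length + 1) + ((q₁ x).2.1 + 1) *
        (2 ^ (q₁ x).2.2 * ((q₁ x).2.2 + 1))) +
        κ₂ * (((q₂ (a, x)).1.length + 1) + ((q₂ (a, x)).2.1 + 1) *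
        (2 ^ (q₂ (a, x)).2.2 * ((q₂ (a, x)).2.2 + 1))) ≤
        (κ₁ + κ₂) * (qcost (q₁ x) + qcost (q₂ (a, x))) := by
      change κ₁ * qcost (q₁ x) + κ₂ * qcost (q₂ (a, x)) ≤ _
      nlinarith [Nat.zero_le (κ₁ * qcost (q₂ (a, x))), Nat.zero_le (κ₂ * qcost (q₁ x))]
    generalize κ₁ * (((q₁ x).1.length + 1) + ((q₁ x).2.1 + 1) *
        (2 ^ (q₁ x).2.2 * ((q₁ x).2.2 + 1))) = z1 at *
    generalize κ₂ * (((q₂ (a, x)).1.length + 1) + ((q₂ (a, x)).2.1 + 1) *
        (2 ^ (q₂ (a, x)).2.2 * ((q₂ (a, x)).2.2 + 1))) = z2 at *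
    generalize (κ₁ + κ₂) * (qcost (q₁ x) + qcost (q₂ (a, x))) = z3 at *
    omega
  rw [← update_eq_fA, ← update_eq_fA] at hrun
  have h := Cmd.outputs c (.inl (.inl .A)) (.inl (.inl .A)) hrun m hb1
  have e : ∀ l : List Bool, List.map (Equiv.refl Bool).symm l = l := fun l => List.map_id l
  have e5 : ∀ x' y' : List Bool, x' = x → y' = out (b, (a, x)) →
      Nonempty (TM2OutputsInTime ((Flow.compile c).toTM (.inl (.inl .A)) (.inl (.inl .A))) x'
        (some y') m) := by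
    rintro x' y' rfl rfl
    exact h
  exact e5 _ _ (e x) (e _)

/-! ### The two theorems -/

theorem qcost_le {y : List Bool} {C e l h H L : ℕ} (hy : y.length ≤ l) (hH : h ≤ H)
    (hL : h ≤ L) : qcost (y, (C * (y.length + 1) ^ e, h)) ≤
      ((l + 1) + (C * (l + 1) ^ e + 1) * (L + 1)) * 2 ^ H := by
  unfold qcost
  simp only
  have g5 : C * (y.length + 1) ^ e + 1 ≤ C * (l + 1) ^ e + 1 :=
    Nat.add_le_add_right (Nat.mul_le_mul_left _ (Nat.pow_le_pow_left (by omega) _)) 1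
  have g7 : 2 ^ h * (h + 1) ≤ 2 ^ H * (L + 1) :=
    Nat.mul_le_mul (Nat.pow_le_pow_right (by norm_num) hH) (by omega)
  have g8 := Nat.mul_le_mul g5 g7
  have g9 : (l + 1) * 1 ≤ (l + 1) * 2 ^ H := Nat.mul_le_mul_left _ Nat.one_le_two_pow
  have g10 : ((l + 1) + (C * (l + 1) ^ e + 1) * (L + 1)) * 2 ^ H =
      (l + 1) * 2 ^ H + (C * (l + 1) ^ e + 1) * (2 ^ H * (L + 1)) := by ring
  rw [g10]
  omega

theorem seq_core {I : Type} {en : I → List Bool} {V : I → Prop}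
    {pre good : I → List Bool → Prop} {μ : I → ℕ} {b₁ b : ℕ} {Q : ℕ → ℕ}
    {K₂ : Type} [DecidableEq K₂] [Fintype K₂] {β : Type} [SCode β] {A₂ : List Bool → ℕ → β}
    (hA₂ : Callable K₂ A₂) {C₂ e₂ : ℕ} {h₁ : List Bool → ℕ}
    {f : List Bool × List Bool → List Bool} {h : List Bool × List Bool → ℕ}
    {out : β × (List Bool × List Bool) → List Bool}
    (hQ : PolyB Q) (hh₁ : PTime h₁) (hf : PTime f) (hh : PTime h) (ho : PTime out)
    (hμ : ∀ F, V F → μ F ≤ (en F).length)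
    (hb : ∀ F, V F → μ F / b₁ ≤ h₁ (en F) ∧ h₁ (en F) ≤ μ F / b)
    (hw : ∀ F, V F → ∀ w, pre F w → w.length ≤ Q (en F).length)
    (hred : ∀ F, V F → ∀ w, pre F w → h (en F, w) ≤ μ F / b ∧
      sz (A₂ (f (en F, w)) (C₂ * ((f (en F, w)).length + 1) ^ e₂ * 2 ^ h (en F, w))) ≤
        Q (en F).length ∧
      good F (out (A₂ (f (en F, w)) (C₂ * ((f (en F, w)).length + 1) ^ e₂ *
        2 ^ h (en F, w)), (w, en F))))
    (hfind : GFind en V pre μ b₁) : GFind en V good μ b := by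
  obtain ⟨C₁, e₁, tm, f₀, f₁, hS⟩ := hfind
  have : Fintype tm.K := tm.kFin
  have hA₁ : Callable tm.K (ansW tm.m tm.k₀ tm.k₁ f₀.symm tm.main tm.initialState f₁) :=
    @exists_callW tm.K tm.kDecidableEq tm.Γ tm.Λ tm.σ tm.kFin tm.ΛFin
      tm.σFin tm.m tm.k₀ tm.k₁ tm.Γk₀Fin f₀.symm tm.main tm.initialState f₁
  have hq₁ : PTime (fun x : List Bool => ((x, (C₁ * (x.length + 1) ^ e₁, h₁ x)) : Qry)) :=
    PTime.id.pair ((PTime.mul (PTime.const C₁)
      (PTime.natPow_const (PTime.succ (PTime.length PTime.id)) e₁)).pair hh₁)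
  have hsw : PTime (fun p : List Bool × List Bool => ((p.2, p.1) : List Bool × List Bool)) :=
    PTime.snd.pair PTime.fst
  have hf' : PTime (fun p : List Bool × List Bool => f (p.2, p.1)) := hf.comp hsw
  have hh' : PTime (fun p : List Bool × List Bool => h (p.2, p.1)) := hh.comp hsw
  have hq₂ : PTime (fun p : List Bool × List Bool =>
      ((f (p.2, p.1), (C₂ * ((f (p.2, p.1)).length + 1) ^ e₂, h (p.2, p.1))) : Qry)) :=
    hf'.pair ((PTime.mul (PTime.const C₂)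
      (PTime.natPow_const (PTime.succ (PTime.length hf')) e₂)).pair hh')
  obtain ⟨tm', e₀', e₁', P, κ, hM⟩ := two_calls hA₁ hA₂ hq₁ hq₂ ho
  obtain ⟨Pf, hPf⟩ := hf.sz_le
  obtain ⟨fQ, hfQ⟩ : ∃ g : ℕ → ℕ, g = fun L => Pf.eval (4 * L + 4 * Q L + 3) := ⟨_, rfl⟩
  have pQ : PolyB fQ := by
    rw [hfQ]
    exact PolyB.eval Pf ((((PolyB.const 4).mul PolyB.id).add ((PolyB.const 4).mul hQ)).add
      (PolyB.const 3))
  obtain ⟨fR, hfR⟩ : ∃ g : ℕ → ℕ, g = fun L => ((L + 1) +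
    (C₁ * (L + 1) ^ e₁ + 1) * (L + 1)) + ((fQ L + 1) + (C₂ * (fQ L + 1) ^ e₂ + 1) * (L + 1)) :=
    ⟨_, rfl⟩
  have pR : PolyB fR := by
    rw [hfR]
    exact ((PolyB.id.add (PolyB.const 1)).add ((((PolyB.const C₁).mul
      ((PolyB.id.add (PolyB.const 1)).pow e₁)).add (PolyB.const 1)).mul
        (PolyB.id.add (PolyB.const 1)))).add ((pQ.add (PolyB.const 1)).add
          ((((PolyB.const C₂).mul ((pQ.add (PolyB.const 1)).pow e₂)).add
            (PolyB.const 1)).mul (PolyB.id.add (PolyB.const 1))))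
  obtain ⟨C', e', hC'⟩ : PolyB (fun L => P.eval (L + (4 * Q L + 1)) + κ * fR L) :=
    (PolyB.eval P (PolyB.id.add (((PolyB.const 4).mul hQ).add (PolyB.const 1)))).add
      ((PolyB.const κ).mul pR)
  refine ⟨C', e', tm', e₀', e₁', fun F hF => ?_⟩
  obtain ⟨x, hx⟩ : ∃ x, x = en F := ⟨_, rfl⟩
  obtain ⟨L, hL⟩ : ∃ L, L = x.length := ⟨_, rfl⟩
  obtain ⟨hb1, hb2⟩ := hb F hF
  have hμL := hμ F hF
  obtain ⟨w, hw1, hrun⟩ := hS F hF
  have hwl := hw F hF w hw1
  obtain ⟨hhw, hszb, hgood⟩ := hred F hF w hw1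
  rw [← hx] at hb1 hb2 hrun hwl hhw hszb hgood hμL ⊢
  rw [← hL] at hwl hszb hμL ⊢
  have hdiv : μ F / b ≤ L := (Nat.div_le_self _ _).trans hμL
  have h1 := outputs_mono (m' := C₁ * (x.length + 1) ^ e₁ * 2 ^ h₁ x)
    (Nat.mul_le_mul_left _ (Nat.pow_le_pow_right (by norm_num) hb1)) hrun
  have h2 := ansWT_of_outputs tm f₀ f₁ w ((x, (C₁ * (x.length + 1) ^ e₁, h₁ x)) : Qry) h1
  have hfl : (f (x, w)).length ≤ fQ L := by
    have e5 : sz ((x, w) : List Bool × List Bool) ≤ 4 * L + 4 * Q L + 3 := by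
      have a1 := sz_listBool_le x
      have a2 := sz_listBool_le w
      rw [sz_pair]
      omega
    have e6 := (length_le_sz _).trans ((hPf (x, w)).trans (eval_mono Pf e5))
    rw [hfQ]
    change (f (x, w)).length ≤ Pf.eval (4 * L + 4 * Q L + 3)
    omega
  have hcost : qcost ((x, (C₁ * (x.length + 1) ^ e₁, h₁ x)) : Qry) +
      qcost ((f (x, w), (C₂ * ((f (x, w)).length + 1) ^ e₂, h (x, w))) : Qry) ≤
      fR L * 2 ^ (μ F / b) := by
    have c1 := qcost_le (y := x) (C := C₁) (e := e₁) (l := L) (h := h₁ x) (H := μ F / b)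
      (L := L) hL.ge hb2 (hb2.trans hdiv)
    have c2 := qcost_le (y := f (x, w)) (C := C₂) (e := e₂) (l := fQ L) (h := h (x, w))
      (H := μ F / b) (L := L) hfl hhw (hhw.trans hdiv)
    have c3 : fR L * 2 ^ (μ F / b) = ((L + 1) + (C₁ * (L + 1) ^ e₁ + 1) * (L + 1)) *
        2 ^ (μ F / b) + ((fQ L + 1) + (C₂ * (fQ L + 1) ^ e₂ + 1) * (L + 1)) *
          2 ^ (μ F / b) := by
      rw [hfR]
      ring
    rw [c3]
    exact Nat.add_le_add c1 c2
  refine ⟨_, hgood, hM x w _ (4 * Q L + 1) _ h2.symm rfl ?_ ?_ ?_⟩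
  · have := sz_listBool_le w
    omega
  · omega
  · rw [← hL]
    simp only
    have t1 : P.eval (L + (4 * Q L + 1)) + κ * (fR L * 2 ^ (μ F / b)) ≤
        (P.eval (L + (4 * Q L + 1)) + κ * fR L) * 2 ^ (μ F / b) := by
      have : P.eval (L + (4 * Q L + 1)) * 1 ≤ P.eval (L + (4 * Q L + 1)) * 2 ^ (μ F / b) :=
        Nat.mul_le_mul_left _ Nat.one_le_two_pow
      rw [Nat.add_mul, Nat.mul_assoc]
      omega
    refine (Nat.add_le_add_left (Nat.mul_le_mul_left κ ?_) _).trans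
      (t1.trans (Nat.mul_le_mul_right _ (hC' L)))
    rw [← hL] at hcost
    exact hcost

/-- A machine that computes a word, followed by a search machine. -/
theorem seq_find {I₁ I₂ : Type} {en₁ : I₁ → List Bool} {en₂ : I₂ → List Bool}
    {V₁ : I₁ → Prop} {V₂ : I₂ → Prop} {pre good₁ : I₁ → List Bool → Prop}
    {good₂ : I₂ → List Bool → Prop} {μ₁ : I₁ → ℕ} {μ₂ : I₂ → ℕ} {b₁ b₂ b : ℕ} {Q : ℕ → ℕ}
    {h₁ : List Bool → ℕ} {f : List Bool × List Bool → List Bool}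
    {h : List Bool × List Bool → ℕ} {out : List Bool × (List Bool × List Bool) → List Bool}
    (hQ : PolyB Q) (hh₁ : PTime h₁) (hf : PTime f) (hh : PTime h) (ho : PTime out)
    (hμ : ∀ F, V₁ F → μ₁ F ≤ (en₁ F).length)
    (hb : ∀ F, V₁ F → μ₁ F / b₁ ≤ h₁ (en₁ F) ∧ h₁ (en₁ F) ≤ μ₁ F / b)
    (hw : ∀ F, V₁ F → ∀ w, pre F w → w.length ≤ Q (en₁ F).length)
    (hred : ∀ F, V₁ F → ∀ w, pre F w → ∃ F', V₂ F' ∧ en₂ F' = f (en₁ F, w) ∧
      (∀ w₂, good₂ F' w₂ → w₂.length ≤ Q (en₁ F).length ∧ good₁ F (out (en₁ F, (w, w₂)))) ∧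
      μ₂ F' / b₂ ≤ h (en₁ F, w) ∧ h (en₁ F, w) ≤ μ₁ F / b)
    (hfind₁ : GFind en₁ V₁ pre μ₁ b₁) (hfind₂ : GFind en₂ V₂ good₂ μ₂ b₂) :
    GFind en₁ V₁ good₁ μ₁ b := by
  obtain ⟨C₂, e₂, tm, f₀, f₁, hS⟩ := hfind₂
  have : Fintype tm.K := tm.kFin
  have hA₂ : Callable tm.K (ansW tm.m tm.k₀ tm.k₁ f₀.symm tm.main tm.initialState f₁) :=
    @exists_callW tm.K tm.kDecidableEq tm.Γ tm.Λ tm.σ tm.kFin tm.ΛFin
      tm.σFin tm.m tm.k₀ tm.k₁ tm.Γk₀Fin f₀.symm tm.main tm.initialState f₁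
  have ho' : PTime (fun p : List Bool × (List Bool × List Bool) => out (p.2.2, (p.2.1, p.1))) :=
    ho.comp ((PTime.snd.comp PTime.snd).pair ((PTime.fst.comp PTime.snd).pair PTime.fst))
  have hQ' : PolyB (fun L => 4 * Q L + 1) := ((PolyB.const 4).mul hQ).add (PolyB.const 1)
  refine seq_core hA₂ (C₂ := C₂) (e₂ := e₂) (h₁ := h₁) (f := f) (h := h)
    (out := fun p => out (p.2.2, (p.2.1, p.1))) hQ' hh₁ hf hh ho' hμ hb ?_ ?_ hfind₁
  · intro F hF w hw1
    have := hw F hF w hw1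
    omega
  · intro F hF w hw1
    obtain ⟨F', hV, hen, hg, hμ2, hμ1⟩ := hred F hF w hw1
    obtain ⟨w₂, hw₂, hrun⟩ := hS F' hV
    obtain ⟨hwl, hwg⟩ := hg w₂ hw₂
    have h1 := outputs_mono (m' := C₂ * ((en₂ F').length + 1) ^ e₂ * 2 ^ h (en₁ F, w))
      (Nat.mul_le_mul_left _ (Nat.pow_le_pow_right (by norm_num) hμ2)) hrun
    rw [hen] at h1
    have h2 := ansWT_of_outputs tm f₀ f₁ w₂ ((f (en₁ F, w),
      (C₂ * ((f (en₁ F, w)).length + 1) ^ e₂, h (en₁ F, w))) : Qry) h1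
    have h3 : ansW tm.m tm.k₀ tm.k₁ f₀.symm tm.main tm.initialState f₁ (f (en₁ F, w))
        (C₂ * ((f (en₁ F, w)).length + 1) ^ e₂ * 2 ^ h (en₁ F, w)) = w₂ := h2
    rw [h3]
    refine ⟨hμ1, ?_, hwg⟩
    have := sz_listBool_le w₂
    omega

/-- A machine that computes a word, followed by a separator. -/
theorem seq_sep {I₁ I₂ : Type} {en₁ : I₁ → List Bool} {en₂ : I₂ → List Bool}
    {V₁ Y₁ N₁ : I₁ → Prop} {V₂ Y₂ N₂ : I₂ → Prop} {pre : I₁ → List Bool → Prop}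
    {μ₁ : I₁ → ℕ} {μ₂ : I₂ → ℕ} {b₁ b₂ b : ℕ} {Q : ℕ → ℕ} {h₁ : List Bool → ℕ}
    {f : List Bool × List Bool → List Bool} {h : List Bool × List Bool → ℕ}
    (hQ : PolyB Q) (hh₁ : PTime h₁) (hf : PTime f) (hh : PTime h)
    (hμ : ∀ F, V₁ F → μ₁ F ≤ (en₁ F).length)
    (hb : ∀ F, V₁ F → μ₁ F / b₁ ≤ h₁ (en₁ F) ∧ h₁ (en₁ F) ≤ μ₁ F / b)
    (hw : ∀ F, V₁ F → ∀ w, pre F w → w.length ≤ Q (en₁ F).length)
    (hred : ∀ F, V₁ F → ∀ w, pre F w → ∃ F', V₂ F' ∧ en₂ F' = f (en₁ F, w) ∧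
      (Y₁ F → Y₂ F') ∧ (N₁ F → N₂ F') ∧
      μ₂ F' / b₂ ≤ h (en₁ F, w) ∧ h (en₁ F, w) ≤ μ₁ F / b)
    (hfind : GFind en₁ V₁ pre μ₁ b₁) (hsep : GSep en₂ V₂ Y₂ N₂ μ₂ b₂) :
    GSep en₁ V₁ Y₁ N₁ μ₁ b := by
  obtain ⟨C₂, e₂, tm, f₀, acc, rej, hne, hS⟩ := hsep
  have : Fintype tm.K := tm.kFin
  have hA₂ : Callable tm.K (ans tm.m tm.k₀ tm.k₁ f₀.symm tm.main tm.initialState acc) :=
    @exists_callC tm.K tm.kDecidableEq tm.Γ tm.Λ tm.σ tm.kFin tm.ΛFin
      tm.σFin tm.m tm.k₀ tm.k₁ tm.Γk₀Fin f₀.symm tm.main tm.initialState acc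
  have ho' : PTime (fun p : Bool × (List Bool × List Bool) => [p.1]) :=
    PTime.cons PTime.fst (PTime.const [])
  have hQ' : PolyB (fun L => Q L + 3) := hQ.add (PolyB.const 3)
  refine sep_of_find (seq_core hA₂ (C₂ := C₂) (e₂ := e₂) (h₁ := h₁) (f := f) (h := h)
    (out := fun p => [p.1]) hQ' hh₁ hf hh ho' hμ hb ?_ ?_ hfind)
  · intro F hF w hw1
    have := hw F hF w hw1
    omega
  · intro F hF w hw1
    obtain ⟨F', hV, hen, hY, hN, hμ2, hμ1⟩ := hred F hF w hw1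
    have hmono : C₂ * ((en₂ F').length + 1) ^ e₂ * 2 ^ (μ₂ F' / b₂) ≤
        C₂ * ((en₂ F').length + 1) ^ e₂ * 2 ^ h (en₁ F, w) :=
      Nat.mul_le_mul_left _ (Nat.pow_le_pow_right (by norm_num) hμ2)
    set q : Qry := (f (en₁ F, w),
      (C₂ * ((f (en₁ F, w)).length + 1) ^ e₂, h (en₁ F, w))) with hq
    have hans : ans tm.m tm.k₀ tm.k₁ f₀.symm tm.main tm.initialState acc (f (en₁ F, w))
        (C₂ * ((f (en₁ F, w)).length + 1) ^ e₂ * 2 ^ h (en₁ F, w)) = ansT tm f₀ acc q := rfl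
    rw [hans]
    refine ⟨hμ1, ?_, ?_, ?_⟩
    · have := sz_bool_le (ansT tm f₀ acc q)
      omega
    · intro hy
      have h1 := outputs_mono hmono ((hS F' hV).1 (hY hy))
      rw [hen] at h1
      have h2 := (ansT_of_outputs tm f₀ acc acc q h1).2 rfl
      simp only [h2]
    · intro hn
      have h1 := outputs_mono hmono ((hS F' hV).2 (hN hn))
      rw [hen] at h1
      have h2 := ansT_of_outputs tm f₀ acc rej q h1
      have h3 : ansT tm f₀ acc q = false := by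
        rw [← Bool.not_eq_true]
        exact fun h3 => hne (h2.1 h3).symm
      simp only [h3]

end Pool.Agent.Lib.MP_87d05f_lc
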