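import Mathlib
import Pool.Agent.Lib.MP_87d05f_lc.CutFind

set_option autoImplicit false

/-!
# The sparsifier: definitions (helper60, after helper15)

The program: the variables are split into `Bk` blocks; a constraint belongs to the class given by
the list of the blocks of its variables; for every class all assignments of the variables of its
blocks are listed, and samples are chosen greedily so that an exact potential (binary numbers)
does not increase on average.
-/

namespace Pool.Agent.Lib.MP_87d05f_lc.SP

open Pool.Agent.PolyTime

/-! ### Binary numbers -/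

/-- natural numbers coded in binary -/
structure BN where
  /-- the number -/
  val : ℕ

instance : SCode BN := ⟨fun x => enc (Nat.bits x.val), fun x y h => by
  have h1 : Nat.bits x.val = Nat.bits y.val := SCode.inj h
  have h2 : x.val = y.val := by
    have h3 := congrArg unbits h1
    rwa [unbits_bits, unbits_bits] at h3
  cases x
  cases y
  simp only at h2
  rw [h2]⟩

/-! ### The greedy choice -/

/-- a column: the payoffs of the candidates at one assignment, and the two products -/
abbrev Col : Type := List ℕ × (BN × BN)

/-- the factor `h m C + (m f_i - ∑ f)` -/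
def ap (h C : ℕ) (c : List ℕ) (i : ℕ) : ℕ := h * c.length * C + c.length * c.getD i 0 - c.sum

/-- the factor `h m C - (m f_i - ∑ f)` -/
def am (h C : ℕ) (c : List ℕ) (i : ℕ) : ℕ := h * c.length * C + c.sum - c.length * c.getD i 0

/-- the potential after the choice of candidate `i` -/
def score (h C : ℕ) (S : List Col) (i : ℕ) : BN :=
  S.foldl (fun acc c => ⟨acc.val + (ap h C c.1 i * c.2.1.val + am h C c.1 i * c.2.2.val)⟩) ⟨0⟩

/-- the choice of candidate `i` -/
def upd (h C : ℕ) (i : ℕ) (S : List Col) : List Col :=
  S.map (fun c => (c.1, (⟨ap h C c.1 i * c.2.1.val⟩, ⟨am h C c.1 i * c.2.2.val⟩)))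

/-- the best of the candidates `0, ..., m - 1` -/
def best (h C m : ℕ) (S : List Col) : ℕ :=
  (List.range m).foldl (fun b i => bif decide ((score h C S i).val < (score h C S b).val)
    then i else b) 0

/-- one greedy step -/
def gst (h C m : ℕ) (s : List ℕ × List Col) : List ℕ × List Col :=
  (best h C m s.2 :: s.1, upd h C (best h C m s.2) s.2)

/-- `t` greedy steps -/
def gre (h C m t : ℕ) (cols : List (List ℕ)) : List ℕ × List Col :=
  (gst h C m)^[t] ([], cols.map (fun c => (c, ((⟨1⟩ : BN), (⟨1⟩ : BN)))))

/-! ### Instances in words -/

/-- a table of payoffs -/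
abbrev TabV : Type := List ((List Bool × List ℕ) × ℕ)

/-- the payoff of a constraint (in words) under an assignment of the words -/
def payW (tb : TabV) (A : List Bool → ℕ) (c : List (List Bool)) : ℕ :=
  Option.casesOn (tb.find? (fun e => decide (e.1 = (c.headD [], c.tail.map A)))) 0 (fun e => e.2)

/-- the value of a word in an association list -/
def lkv (y : List (List Bool × ℕ)) (w : List Bool) : ℕ :=
  Option.casesOn (y.find? (fun e => decide (e.1 = w))) 0 (fun e => e.2)

/-- the variables and their blocks -/
def bks (Bk : ℕ) (G : List (List (List Bool))) : List (List Bool × ℕ) :=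
  (ded (G.flatMap List.tail)).zipIdx.map (fun p => (p.1, p.2 - Bk * mydiv p.2 Bk))

/-- the class of a constraint: the blocks of its variables -/
def key (Bk : ℕ) (G : List (List (List Bool))) (c : List (List Bool)) : List ℕ :=
  c.tail.map (lkv (bks Bk G))

/-- the constraints of a class with their positions -/
def mem (Bk : ℕ) (G : List (List (List Bool))) (T : List ℕ) : List (List (List Bool) × ℕ) :=
  G.zipIdx.filter (fun p => decide (key Bk G p.1 = T))

/-- the variables of the blocks of a class -/
def cvs (Bk : ℕ) (G : List (List (List Bool))) (T : List ℕ) : List (List Bool) :=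
  ((bks Bk G).filter (fun e => decide (e.2 ∈ T))).map Prod.fst

/-- all assignments of the variables `V` by numbers below `d` (at most `fuel` of them) -/
def asg (d fuel : ℕ) (V : List (List Bool)) : List (List (List Bool × ℕ)) :=
  V.foldr (fun v r => ((List.range d).flatMap (fun k => r.map (fun y => (v, k) :: y))).take fuel)
    [[]]

/-- the sample of a class: positions in `G` -/
def smpT (tb : TabV) (d C Bk h s fuel : ℕ) (G : List (List (List Bool))) (T : List ℕ) :
    List ℕ :=
  (gre h C (mem Bk G T).length s ((asg d fuel (cvs Bk G T)).map (fun y =>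
    (mem Bk G T).map (fun p => payW tb (lkv y) p.1)))).1.filterMap
      (fun i => ((mem Bk G T).map Prod.snd)[i]?)

/-- the sample: positions in `G`; class `T` is repeated `⌊Q m_T / m⌋` times -/
def smp (tb : TabV) (d C Bk h s Q fuel : ℕ) (G : List (List (List Bool))) : List ℕ :=
  (ded (G.map (key Bk G))).flatMap (fun T =>
    (List.replicate (mydiv (Q * (mem Bk G T).length) G.length)
      (smpT tb d C Bk h s fuel G T)).flatten)

/-- the output: the chosen constraints -/
def smpW (tb : TabV) (d C Bk h s Q fuel : ℕ) (G : List (List (List Bool))) :
    List (List (List Bool)) :=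
  (smp tb d C Bk h s Q fuel G).filterMap (fun i => G[i]?)

section tab

variable {d g : ℕ} {ar : Fin g → ℕ}

/-- the table of a language -/
noncomputable def tabV (φ : (i : Fin g) → (Fin (ar i) → Fin d) → ℕ) : TabV :=
  (Finset.univ : Finset ((i : Fin g) × (Fin (ar i) → Fin d))).toList.map (fun e =>
    ((Nat.bits (e.1 : ℕ), List.ofFn (fun j => (e.2 j : ℕ))), φ e.1 e.2))

end tab

end Pool.Agent.Lib.MP_87d05f_lc.SP
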