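import Mathlib
import Pool.Agent.Lib.MP_87d05f_lc.SP.Defs

set_option autoImplicit false

/-!
# SPARSIFIER: statements with complete proofs in words (helper60, after helper15)

Pieces go to `SP/P/<name>.lean`, namespace `Pool.Agent.Lib.MP_87d05f_lc.SP`, theorem `<name>`, with
the statements a piece uses as hypotheses in the given order, e.g. `theorem grp (h : BnS) : GrpS`.
`PTime` and its closure properties: `Lib/PolyTime/Typed.lean`, `Eq.lean` (foldl, foldl_of_bound,
foldr, iterate_of_bound, map, flatMap, filter, filterMap, range, getD, getElem?, take, replicate,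
mul, add, sub, natPow_const, eq, mem, find?, zipIdx, option_casesOn, cond) and the files
`Parse.lean` (`ded_ptime`), `Thin.lean` (`mydiv_ptime`), `BlockLang.lean` (`lkp_ptime`: a model).
-/

namespace Pool.Agent.Lib.MP_87d05f_lc.SP

open Pool.Agent.PolyTime Finset

/-! ## Binary numbers and the greedy choice -/

/-- [bn] Addition, multiplication by a unary number and comparison of binary numbers are
polynomial-time.  (Schoolbook addition on the two lists of bits with a carry, written as a fold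
over `List.range` of the larger length with `getD i false`, output reversed; remove trailing
`false` to get `Nat.bits`; multiplication by `a`: `a` additions, the sizes stay below
`sz a + sz x`-polynomials since `Nat.size (a * x) ≤ Nat.size a + Nat.size x`; comparison: compare
the lengths of `Nat.bits`, then the bits from the top.  `BnS` is about the codes
`enc (Nat.bits x.val)`.) -/
def BnS : Prop :=
  PTime (fun p : BN × BN => (⟨p.1.val + p.2.val⟩ : BN)) ∧
  PTime (fun p : ℕ × BN => (⟨p.1 * p.2.val⟩ : BN)) ∧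
  PTime (fun p : BN × BN => decide (p.1.val < p.2.val)) ∧
  (∀ x : BN, sz x ≤ 4 * Nat.size x.val + 1) ∧ (∀ x : BN, 2 * Nat.size x.val + 1 ≤ sz x)

/-- [grp] (uses bn) The greedy choice is polynomial-time.  (`score`: fold; `best`: fold;
`gst`; `iterate_of_bound`: after `i` steps the numbers are at most `B ^ i`, where
`B = (h m C + m max + 1)`-like bound with `Nat.size B` at most the size of the input, so their
binary sizes are at most `i * (size of the input) + 1`.) -/
def GrpS : Prop := ∀ C : ℕ,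
  PTime (fun p : (ℕ × (ℕ × ℕ)) × List (List ℕ) => gre p.1.1 C p.1.2.1 p.1.2.2 p.2)

/-- [grs] Semantics of the greedy choice.  With `H = h m C`: `∑_{i<m} ap c i = m H`,
`∑_{i<m} am c i = m H` for every column of length `m` with entries at most `C` (`h ≥ 1`, so no
truncation in the subtractions), so the scores of the `m` candidates have sum
`m H * (current potential)` and the best one is at most `H * (current potential)`. -/
def GrsS : Prop := ∀ (h C m t : ℕ) (cols : List (List ℕ)), 1 ≤ h → 1 ≤ m →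
  (∀ c ∈ cols, c.length = m ∧ ∀ x ∈ c, x ≤ C) →
  (gre h C m t cols).1.length = t ∧ (∀ i ∈ (gre h C m t cols).1, i < m) ∧
  (gre h C m t cols).2 = cols.map (fun c => (c,
    ((⟨((gre h C m t cols).1.map (ap h C c)).prod⟩ : BN),
     (⟨((gre h C m t cols).1.map (am h C c)).prod⟩ : BN)))) ∧
  (cols.map (fun c => ((gre h C m t cols).1.map (ap h C c)).prod +
    ((gre h C m t cols).1.map (am h C c)).prod)).sum ≤ (h * m * C) ^ t * (2 * cols.length)

/-- [pot] The potential lemma, for one column `c` of length `m` with entries at most `C` and a list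
`I` of `t` indices.  (`h ≥ 2`, `C ≥ 1`, `H = h m C`, `z_i = (m c_i - ∑ c)/H`, so `|z_i| ≤ 1/h`,
`ap c i = H (1 + z_i)`, `am c i = H (1 - z_i)`.  `log (1 + z) ≥ z - z^2` for `|z| ≤ 1/2`, so
`∑ z_i ≤ log (2 ^ (L+1)) + t / h^2 ≤ (L + 1) + t / h^2`; multiply by `H`.) -/
def PotS : Prop := ∀ (h C m L : ℕ) (c : List ℕ) (I : List ℕ), 2 ≤ h → 1 ≤ C → 1 ≤ m →
  c.length = m → (∀ x ∈ c, x ≤ C) → (∀ i ∈ I, i < m) →
  (I.map (ap h C c)).prod ≤ (h * m * C) ^ I.length * 2 ^ (L + 1) →
  (I.map (am h C c)).prod ≤ (h * m * C) ^ I.length * 2 ^ (L + 1) →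
  |(m : ℚ) * ((I.map (fun i => c.getD i 0)).sum : ℕ) - (I.length : ℚ) * (c.sum : ℕ)| ≤
    (m : ℚ) * C * (h * (L + 1) + I.length / h)

/-! ## Assignments and classes -/

/-- [asp] PTime of the enumeration.  (`foldr` with the bound `(fuel + 1) * (1 + |V|) *`
`(size of V + d + ..)`: use the reversed `foldl_of_bound`, or `foldr` with `take`.) -/
def AspS : Prop := ∀ d : ℕ, PTime (fun p : ℕ × List (List Bool) => asg d p.1 p.2)

/-- [ass] Semantics of the enumeration. -/
def AssS : Prop := ∀ (d fuel : ℕ) (V : List (List Bool)), 1 ≤ d →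
  (asg d fuel V).length ≤ d ^ V.length ∧
  (d ^ V.length ≤ fuel → ∀ A : List Bool → ℕ, (∀ w, A w < d) →
    V.map (fun w => (w, A w)) ∈ asg d fuel V)

/-- [cls] Sizes: the classes cover the variables of their constraints, the number of variables of
a class, the number of classes.  (`bks` lists the distinct variables with their position modulo
`Bk`; residue class `b` of `{0..n-1}` has at most `n / Bk + 1` elements; keys are lists of length
at most `K` with entries below `Bk`, at most `∑_{j ≤ K} Bk^j ≤ (Bk + 1)^K`.) -/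
def ClsS : Prop := ∀ (Bk K : ℕ) (G : List (List (List Bool))), 1 ≤ Bk →
  (∀ c ∈ G, c.tail.length ≤ K) →
  (∀ c ∈ G, ∀ w ∈ c.tail, w ∈ cvs Bk G (key Bk G c)) ∧
  (∀ c ∈ G, (cvs Bk G (key Bk G c)).length ≤
    K * ((G.flatMap List.tail).toFinset.card / Bk + 1)) ∧
  (ded (G.map (key Bk G))).length ≤ (Bk + 1) ^ K

/-- [tab] The table computes the payoffs; payoffs in words depend only on the variables. -/
def TabS : Prop := ∀ (d g : ℕ) (ar : Fin g → ℕ) (φ : (i : Fin g) → (Fin (ar i) → Fin d) → ℕ),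
  (∀ (a : ℕ → Fin d) (c : Con ar),
    payW (tabV φ) (fun w => (a (unbits w) : ℕ)) (wordC c) = φ c.1 (fun j => a (c.2 j))) ∧
  (∀ (A A' : List Bool → ℕ) (c : List (List Bool)), (∀ w ∈ c.tail, A w = A' w) →
    payW (tabV φ) A c = payW (tabV φ) A' c) ∧
  (∀ (Φ : ℕ) (A : List Bool → ℕ) (c : List (List Bool)), (∀ i x, φ i x ≤ Φ) →
    payW (tabV φ) A c ≤ Φ)

/-- [smt] (uses grs, pot, ass, tab) The sample of one class.  `m_T = (mem Bk G T).length`.  The
columns are indexed by the assignments in `asg`; for an assignment `A` of the words the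
association list `y = (cvs ..).map (fun w => (w, A w))` is one of them, and
`payW tb (lkv y) c = payW tb A c` for the constraints of the class (their variables are in `cvs`,
hypothesis).  `2 * (number of columns) ≤ 2 ^ (L + 1)` where `L = lam * |cvs|`-bound.  The final
potential bounds both products of the column of `y` by `H^s 2^(L+1)`; apply [pot] and divide by
`m_T s`. -/
def SmtS : Prop := ∀ (d g : ℕ) (ar : Fin g → ℕ) (φ : (i : Fin g) → (Fin (ar i) → Fin d) → ℕ)
  (C Bk h s fuel L : ℕ) (G : List (List (List Bool))) (T : List ℕ),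
  1 ≤ d → (∀ i x, φ i x ≤ C) → 1 ≤ C → 2 ≤ h → s = h * h * (L + 1) →
  mem Bk G T ≠ [] → d ^ (cvs Bk G T).length ≤ 2 ^ L → 2 ^ L ≤ fuel →
  (∀ p ∈ mem Bk G T, ∀ w ∈ p.1.tail, w ∈ cvs Bk G T) →
  (smpT (tabV φ) d C Bk h s fuel G T).length = s ∧
  (∀ i ∈ smpT (tabV φ) d C Bk h s fuel G T, ∃ c, G[i]? = some c ∧ key Bk G c = T) ∧
  ∀ A : List Bool → ℕ, (∀ w, A w < d) →
  |(((smpT (tabV φ) d C Bk h s fuel G T).map (fun i => payW (tabV φ) A (G.getD i []))).sum : ℚ)
      / s - (((mem Bk G T).map (fun p => payW (tabV φ) A p.1)).sum : ℚ) /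
      (mem Bk G T).length| ≤ 2 * C / h

/-- [cmb] Combination of the classes.  Indices `T` in a finite set, `m_T ≥ 1`, `m = ∑ m_T`,
`r_T = ⌊Q m_T / m⌋ = Q m_T / m - θ_T`, `R = ∑ r_T = Q - Θ`, `Θ ≤ κ` the number of classes:
`r_T / R - m_T / m = (Θ m_T / m - θ_T) / R`, so `∑ |r_T / R - m_T / m| ≤ 2 Θ / R`. -/
def CmbS : Prop := ∀ (X : Type) (S : Finset X) (m r : X → ℕ) (Q κ : ℕ) (u v : X → ℚ)
  (C β : ℚ), S.Nonempty → S.card ≤ κ → κ < Q → (∀ T ∈ S, 1 ≤ m T) →
  (∀ T ∈ S, r T = Q * m T / ∑ T ∈ S, m T) → (∀ T ∈ S, 0 ≤ u T ∧ u T ≤ C) →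
  (∀ T ∈ S, |u T - v T| ≤ β) →
  0 < ∑ T ∈ S, r T ∧ ∑ T ∈ S, r T ≤ Q ∧
  |(∑ T ∈ S, (r T : ℚ) * u T) / (∑ T ∈ S, (r T : ℚ)) -
    (∑ T ∈ S, (m T : ℚ) * v T) / (∑ T ∈ S, (m T : ℚ))| ≤ β + 2 * κ * C / (Q - κ)

/-- [sms] (uses cls, tab, smt, cmb) THE SAMPLE.  `G = F.map wordC`; the classes are the different
keys; the number of variables is `nvC F`; `L = lam * (K * (n / Bk + 1))`. -/
def SmsS : Prop := ∀ (d g : ℕ) (ar : Fin g → ℕ) (φ : (i : Fin g) → (Fin (ar i) → Fin d) → ℕ)
  (C K Bk h Q lam fuel : ℕ) (F : List (Con ar)),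
  1 ≤ d → (∀ i x, φ i x ≤ C) → 1 ≤ C → (∀ i, ar i ≤ K) → 1 ≤ Bk → 2 ≤ h → d ≤ 2 ^ lam →
  (Bk + 1) ^ K < Q → F ≠ [] → 2 ^ (lam * (K * (nvC F / Bk + 1))) ≤ fuel →
  ∃ P : List ℕ, P = smp (tabV φ) d C Bk h (h * h * (lam * (K * (nvC F / Bk + 1)) + 1)) Q fuel
      (F.map wordC) ∧ P ≠ [] ∧ (∀ i ∈ P, i < F.length) ∧
    P.length ≤ Q * (h * h * (lam * (K * (nvC F / Bk + 1)) + 1)) ∧
    ∀ a : ℕ → Fin d,
      |(valC φ a (P.filterMap (fun i => F[i]?)) : ℚ) / P.length -
        (valC φ a F : ℚ) / F.length| ≤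
      2 * C / h + 2 * ((Bk + 1) ^ K : ℕ) * C / (Q - ((Bk + 1) ^ K : ℕ))

/-- [smp] (uses grp, asp) The program is polynomial-time in the instance, the unary parameters and
the unary fuel. -/
def SmpS : Prop := ∀ (tb : TabV) (d C : ℕ),
  PTime (fun p : (((ℕ × ℕ) × (ℕ × ℕ)) × List (List (List Bool))) × ℕ =>
    smpW tb d C p.1.1.1.1 p.1.1.1.2 p.1.1.2.1 p.1.1.2.2 p.2 p.1.2)

/-! ## Machines -/

/-- a good sample with `D (n + 1)` constraints and error `ε`, in code -/
def goodS {d g : ℕ} {ar : Fin g → ℕ} (φ : (i : Fin g) → (Fin (ar i) → Fin d) → ℕ) (ε : ℚ)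
    (D : ℕ) (F : List (Con ar)) (w : List Bool) : Prop :=
  ∃ F' : List (Con ar), w = codeC F' ∧ F' ≠ [] ∧ (∀ c ∈ F', c ∈ F) ∧
    F'.length ≤ D * (nvC F + 1) ∧
    ∀ a : ℕ → Fin d, |(valC φ a F' : ℚ) / F'.length - (valC φ a F : ℚ) / F.length| ≤ ε

/-- the output of the sparsifier is correct (on the empty instance it is the empty instance) -/
def goodS' {d g : ℕ} {ar : Fin g → ℕ} (φ : (i : Fin g) → (Fin (ar i) → Fin d) → ℕ) (ε : ℚ)
    (D : ℕ) (F : List (Con ar)) (w : List Bool) : Prop :=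
  (F = [] → w = codeC F) ∧ (F ≠ [] → goodS φ ε D F w)

/-- [spm] (uses sms, smp and `pad_machine` of `SP/Pad.lean`) THE SPARSIFIER for any encoding from
which the constraints are read in polynomial time.  The program on the padded input is
`P(((Bk, h), (s, Q)), G), u) = encW (smpW (tabV φ) d C Bk h s Q (2 ^ (lam * K) * u.length) G)`;
it depends only on the language; let `e ≥ 1` be the exponent given by `pad_machine` for it.
Constants: `C = 1 + ∑ φ`, `K = 1 + ∑ ar`, `lam` with `1 ≤ lam`, `d ≤ 2 ^ lam`; `h ≥ 4 C / ε`,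
`h ≥ 2`; `Bk = e * (lam * K) * b + lam * K`, `κ = (Bk + 1) ^ K`, `Q ≥ κ + 1 + 4 κ C / ε`;
`hgt x = min x.length (lam * K * (n / Bk))` with `n = (ded ((f x).flatMap List.tail)).length`
(`nvC_eq`; on codes of instances the minimum is the second number, because
`lam * K * (n / Bk) ≤ n ≤ x.length`); `s = h * h * (lam * (K * (n / Bk + 1)) + 1)`;
fuel `2 ^ (lam * K) * 2 ^ hgt = 2 ^ (lam * (K * (n / Bk + 1)))`.
`e * (lam * K * (n / Bk)) ≤ n / b ≤ μ / b`; `Q * s ≤ D * (n + 1)` with
`D = Q * (h * h * (lam * K + 1))`.  On the empty list of constraints the program gives the empty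
list, `codeC [] = encW [] = []`. -/
def SpmS : Prop := ∀ (d g : ℕ) (ar : Fin g → ℕ) (φ : (i : Fin g) → (Fin (ar i) → Fin d) → ℕ),
  1 ≤ d → ∀ (ε : ℚ), 0 < ε → ∀ b : ℕ, 0 < b →
  ∃ D : ℕ, ∀ (I : Type) (en : I → List Bool) (V : I → Prop) (inst : I → List (Con ar))
    (μ : I → ℕ) (f : List Bool → List (List (List Bool))), PTime f →
    (∀ i, V i → f (en i) = (inst i).map wordC ∧ nvC (inst i) ≤ μ i ∧
      nvC (inst i) ≤ (en i).length) →
    GFind en V (fun i w => goodS' φ ε D (inst i) w) μ b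

/-! ## Approximation in time `2 ^ (n / b)` -/

/-- the constraints with a positive payoff for some assignment -/
noncomputable def usC {d g : ℕ} {ar : Fin g → ℕ} (φ : (i : Fin g) → (Fin (ar i) → Fin d) → ℕ)
    (F : List (Con ar)) : List (Con ar) :=
  open Classical in F.filter (fun c => decide (∃ a : ℕ → Fin d, 0 < φ c.1 (fun j => a (c.2 j))))

/-- [usm] (uses spm) The sparsifier for the useful constraints of an instance with a threshold.
(`f x = (parseW x).tail.filter useful` and `(parseW x).filter useful`; `useful`, `useful_iff`,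
`useful_ptime`, `usI` in `MaxRev.lean`, `MaxSem.lean`; or any other polynomial-time test, for
instance: the table `tabV φ` has an entry with positive payoff whose list of values is compatible
with the word; `nvC (usC φ F) ≤ nvC F`, `nvC_le`.) -/
def UsmS : Prop := ∀ (d g : ℕ) (ar : Fin g → ℕ) (φ : (i : Fin g) → (Fin (ar i) → Fin d) → ℕ),
  1 ≤ d → ∀ (ε : ℚ), 0 < ε → ∀ b : ℕ, 0 < b → ∃ D : ℕ,
  GFind (enM (ar := ar)) (fun _ => True) (fun I w => goodS' φ ε D (usC φ I.2) w)
    (fun I => nvC I.2) b ∧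
  GFind (codeC (ar := ar)) (fun _ => True) (fun F w => goodS' φ ε D (usC φ F) w) nvC b

/-- [nth] The thresholds (pure arithmetic and averaging).  `m, m'` the numbers of constraints of
`F_u = usC φ F` and of its sample `F'`, both positive; `c₀ = 1/d^K`; `ε₁ = ε c₀ / 8`; every useful
constraint has average payoff at least `c₀` over all assignments of its variables, so some
assignment has value at least `c₀ m`.  `t' = ⌈m' (t/m - ε₁)⌉` (zero if negative).  YES: a value
`≥ t` on `F` gives a value `≥ m' (t/m - ε₁)`, an integer, on `F'`.  NO: all values on `F` are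
`< (1 - ε) t`; so `t > c₀ m`, and every value on `F'` is
`< m' ((1 - ε) t/m + ε₁) ≤ (1 - ε/4) m' (t/m - ε₁) ≤ (1 - ε/4) t'`.  Search: if `a` is
`(1 - ε/4)`-optimal on `F'` then `val_F(a)/m ≥ (1 - ε/4) (OPT/m - ε₁) - ε₁ ≥ (1 - ε/2) OPT/m`
because `OPT ≥ c₀ m`.  The values on `F` and on `F_u` are equal. -/
def NthS : Prop := ∀ (d g K : ℕ) (ar : Fin g → ℕ) (φ : (i : Fin g) → (Fin (ar i) → Fin d) → ℕ)
  (ε : ℚ) (F F' : List (Con ar)) (t : ℕ), 1 ≤ d → (∀ i, ar i ≤ K) → 0 < ε → ε < 1 →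
  usC φ F ≠ [] → F' ≠ [] →
  (∀ a : ℕ → Fin d, |(valC φ a F' : ℚ) / F'.length -
    (valC φ a (usC φ F) : ℚ) / (usC φ F).length| ≤ ε / (8 * d ^ K)) →
  ((∃ a : ℕ → Fin d, t ≤ valC φ a F) → ∃ a : ℕ → Fin d,
    (⌈(F'.length : ℚ) * (t / (usC φ F).length - ε / (8 * d ^ K))⌉).toNat ≤ valC φ a F') ∧
  ((∀ a : ℕ → Fin d, (valC φ a F : ℚ) < (1 - ε) * t) → ∀ a : ℕ → Fin d,
    (valC φ a F' : ℚ) < (1 - ε / 4) *
      ((⌈(F'.length : ℚ) * (t / (usC φ F).length - ε / (8 * d ^ K))⌉).toNat : ℕ)) ∧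
  (∀ a : ℕ → Fin d, (∀ a' : ℕ → Fin d,
      (1 - ε / 4) * (valC φ a' F' : ℚ) ≤ (valC φ a F' : ℚ)) →
    ∀ b : ℕ → Fin d, (1 - ε) * (valC φ b F : ℚ) ≤ (valC φ a F : ℚ))

/-- [nsep] (uses usm, nth and `seq_sep` of `SP/Seq.lean`) If Q1 fails, every Max-CSP has
separators in time `2 ^ (n / b)`, `n` the number of variables.  (`max_rev` gives separators in time
`2 ^ (m / b₂)` for all `ε`, `b₂`.  `seq_sep` with `en₁ = en₂ = enM`, the first machine of [usm] for
`b₁ = b`, `D` its constant (for the error `ε / (8 d ^ K)`), second machine: `max_rev` for `ε / 4`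
and `b₂ = 2 b D + 1` (then `D (n + 1) / b₂ ≤ n / b`), `h₁ x = h (x, w) = n / b`,
`f (x, w) = encW ([replicate t' true] :: parseW w)` with `t'` of [nth] computed in unary
(`t' = (m' (8 q d^K t - p m) + M - 1) / M`, `M = 8 q d^K m`); if the useful part is empty `w` is
empty and `t' = t`.  `pre I w = goodS' φ _ D (usC φ I.2) w`; `Q L = D * (L + 1) * L`.) -/
def NsepS : Prop := ∀ (d g : ℕ) (ar : Fin g → ℕ) (φ : (i : Fin g) → (Fin (ar i) → Fin d) → ℕ),
  1 ≤ d → (∀ k p q b : ℕ, 3 ≤ k → 0 < p → p < q → 0 < b →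
    SepK k (fun _ => True) ((p : ℚ) / (q : ℕ)) b) →
  ∀ p q b : ℕ, 0 < p → p < q → 0 < b →
  GSep (enM (ar := ar)) (fun _ => True) (YM φ) (NM φ ((p : ℚ) / (q : ℕ))) (fun I => nvC I.2) b

/-- [nfnd] (uses usm, nth and `seq_find` of `SP/Seq.lean`) The same for the search problem, with
`search_main` (`BlockMain.lean`; `goodMax`, `outW`).  The output function reads the values of the
places of `F'` from the second word, forms the association list of the variables of `F'` and writes
the values of all places of `F` (`0` for variables not in `F'`); this is `outW F a` for an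
assignment `a` which agrees on the variables of `F'` with the one found. -/
def NfndS : Prop := ∀ (d g : ℕ) (ar : Fin g → ℕ) (φ : (i : Fin g) → (Fin (ar i) → Fin d) → ℕ),
  1 ≤ d → (∀ k p q b : ℕ, 3 ≤ k → 0 < p → p < q → 0 < b →
    SepK k (fun _ => True) ((p : ℚ) / (q : ℕ)) b) →
  ∀ p q b : ℕ, 0 < p → p < q → 0 < b →
  GFind (codeC (ar := ar)) (fun _ => True) (goodMax φ ((p : ℚ) / (q : ℕ))) nvC b

end Pool.Agent.Lib.MP_87d05f_lc.SP
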