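import Mathlib
import Pool.Agent.Lib.MP_87d05f_lc.SP.Stm

set_option autoImplicit false

/-!
# The value of an assignment given by its list of values, and separators from search (helper60)

`valsU` reads numbers in unary, `asc G w` is the association list of the variables of `G` with the
values written in `w`, `valX tb G w` the value.  `sep_of_find_max`: a machine that finds
near-optimal assignments gives a separator, for any measure of instances.
-/

namespace Pool.Agent.Lib.MP_87d05f_lc.SP

open Pool.Agent.PolyTime Turing

/-! ### Reading the values -/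

/-- the numbers given in unary, each followed by `false` -/
def valsU (w : List Bool) : List ℕ :=
  w.foldr (fun b acc => bif b then (acc.headD 0 + 1) :: acc.tail else 0 :: acc) []

theorem valsU_ptime : PTime valsU := by
  unfold valsU
  refine PTime.foldr (f := fun (_ : List Bool) b (acc : List ℕ) =>
    bif b then (acc.headD 0 + 1) :: acc.tail else 0 :: acc) PTime.id (PTime.const []) ?_
    (Polynomial.C 20) ?_
  · exact PTime.cond (PTime.fst.comp PTime.snd)
      (PTime.cons (PTime.succ (PTime.headD (PTime.snd.comp PTime.snd) (PTime.const 0)))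
        (PTime.tail (PTime.snd.comp PTime.snd)))
      (PTime.cons (PTime.const 0) (PTime.snd.comp PTime.snd))
  · intro a s b _
    rw [Polynomial.eval_C]
    cases b
    · simp only [cond_false, sz_cons, sz_nat]
      omega
    · rcases s with _ | ⟨x, s⟩
      · simp only [cond_true, List.headD_nil, List.tail_nil, sz_cons, sz_nat, sz_nil]
        omega
      · simp only [cond_true, List.headD_cons, List.tail_cons, sz_cons, sz_nat]
        omega

theorem valsU_token (k : ℕ) (r : List Bool) :
    valsU ((List.replicate k true ++ [false]) ++ r) = k :: valsU r := by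
  unfold valsU
  rw [List.append_assoc, List.foldr_append, List.foldr_append]
  generalize r.foldr (fun b acc => bif b then (acc.headD 0 + 1) :: acc.tail else 0 :: acc) [] = u
  simp only [List.foldr_cons, List.foldr_nil, cond_false]
  induction k with
  | zero => rfl
  | succ k ih =>
    rw [List.replicate_succ, List.foldr_cons, ih]
    rfl

theorem valsU_flatMap (V : List ℕ) (a : ℕ → ℕ) :
    valsU (V.flatMap (fun v => List.replicate (a v) true ++ [false])) = V.map a := by
  induction V with
  | nil => rfl
  | cons v V ih => rw [List.flatMap_cons, valsU_token, ih, List.map_cons]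

section

variable {d g : ℕ} {ar : Fin g → ℕ}

/-- the places of an instance -/
def plc (F : List (Con ar)) : List ℕ := F.flatMap (fun c => List.ofFn c.2)

theorem outW_eq (F : List (Con ar)) (a : ℕ → Fin d) :
    outW F a = (plc F).flatMap (fun v => List.replicate (a v : ℕ) true ++ [false]) := by
  unfold outW plc
  rw [List.flatMap_assoc]

theorem valsU_outW (F : List (Con ar)) (a : ℕ → Fin d) :
    valsU (outW F a) = (plc F).map (fun v => (a v : ℕ)) := by
  rw [outW_eq]
  exact valsU_flatMap _ _

theorem plc_length_le (F : List (Con ar)) : F.length + (plc F).length ≤ (codeC F).length := by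
  rw [codeC_eq]
  refine le_trans ?_ (encW_length _)
  unfold plc
  rw [List.length_map, List.map_map, List.length_flatMap]
  refine Nat.add_le_add_left (List.sum_le_sum fun c _ => ?_) _
  simp [wordC]

theorem outW_length_le (F : List (Con ar)) (a : ℕ → Fin d) :
    (outW F a).length ≤ d * (plc F).length := by
  rw [outW_eq]
  induction plc F with
  | nil => simp
  | cons v V ih =>
    rw [List.flatMap_cons, List.length_append, List.length_cons, List.length_append,
      List.length_replicate, List.length_singleton, Nat.mul_succ]
    have := (a v).2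
    omega

/-- the association list of the variables of `G` and the values in `w` -/
def asc (G : List (List (List Bool))) (w : List Bool) : List (List Bool × ℕ) :=
  (G.flatMap List.tail).zipIdx.map (fun p => (p.1, (valsU w).getD p.2 0))

theorem zipIdx_map_getD {α : Type} (L : List α) (M : List ℕ) (h : L.length = M.length) :
    L.zipIdx.map (fun p => (p.1, M.getD p.2 0)) = L.zip M := by
  apply List.ext_getElem
  · simp [h]
  · intro i h1 h2
    simp only [List.length_map, List.length_zipIdx] at h1
    simp only [List.getElem_map, List.getElem_zipIdx, List.getElem_zip, Nat.zero_add]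
    rw [List.getD_eq_getElem _ _ (by omega)]

theorem asc_eq (F : List (Con ar)) (a : ℕ → Fin d) :
    asc (F.map wordC) (outW F a) = (plc F).map (fun v => (Nat.bits v, (a v : ℕ))) := by
  unfold asc
  rw [valsU_outW, vars_wordC]
  change ((plc F).map Nat.bits).zipIdx.map _ = _
  rw [zipIdx_map_getD _ _ (by simp), List.zip_map']

theorem lkv_map (V : List ℕ) (a : ℕ → ℕ) (v : ℕ) (hv : v ∈ V) :
    lkv (V.map (fun v => (Nat.bits v, a v))) (Nat.bits v) = a v := by
  unfold lkv
  have h : (V.map (fun v => (Nat.bits v, a v))).find? (fun e => decide (e.1 = Nat.bits v)) =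
      some (Nat.bits v, a v) := by
    induction V with
    | nil => simp at hv
    | cons u V ih =>
      rw [List.map_cons, List.find?_cons]
      by_cases hu : u = v
      · subst hu
        simp
      · have hne : ¬ (Nat.bits u = Nat.bits v) := fun h => hu (bits_injective h)
        rw [decide_eq_false hne]
        have hv' : v ∈ V := by
          rcases List.mem_cons.1 hv with h | h
          · exact absurd h.symm hu
          · exact h
        exact ih hv'
  rw [h]

/-- the value of the assignment written in `w` on the instance `G` (in words) -/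
def valX (tb : TabV) (G : List (List (List Bool))) (w : List Bool) : ℕ :=
  (G.map (fun c => payW tb (lkv (asc G w)) c)).sum

theorem valX_eq (ht : TabS) (φ : (i : Fin g) → (Fin (ar i) → Fin d) → ℕ) (F : List (Con ar))
    (a : ℕ → Fin d) : valX (tabV φ) (F.map wordC) (outW F a) = valC φ a F := by
  obtain ⟨h1, h2, -⟩ := ht d g ar φ
  unfold valX valC
  rw [asc_eq, List.map_map]
  refine congrArg List.sum (List.map_congr_left fun c hc => ?_)
  rw [Function.comp_apply, ← h1 a c]
  refine h2 _ _ _ fun w hw => ?_
  unfold wordC at hw
  rw [List.tail_cons, List.mem_map] at hw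
  obtain ⟨v, hv, rfl⟩ := hw
  rw [unbits_bits]
  exact lkv_map (plc F) (fun v => (a v : ℕ)) v (List.mem_flatMap.2 ⟨c, hc, hv⟩)

end

/-! ### Polynomial time -/

theorem lkv_ptime {α : Type} [SCode α] {y : α → List (List Bool × ℕ)} {w : α → List Bool}
    (hy : PTime y) (hw : PTime w) : PTime (fun a => lkv (y a) (w a)) := by
  unfold lkv
  refine PTime.option_casesOn
    (f := fun a => (y a).find? (fun e => decide (e.1 = w a)))
    (g := fun _ => (0 : ℕ))
    (h := fun _ (e : List Bool × ℕ) => e.2) ?_ (PTime.const _)
    (PTime.snd.comp PTime.snd)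
  refine PTime.find? (l := y) (p := fun a (e : List Bool × ℕ) => decide (e.1 = w a)) hy ?_
  exact PTime.eq (PTime.fst.comp PTime.snd) (hw.comp PTime.fst)

theorem payW_lkv_ptime {α : Type} [SCode α] (tb : TabV) {y : α → List (List Bool × ℕ)}
    {c : α → List (List Bool)} (hy : PTime y) (hc : PTime c) :
    PTime (fun a => payW tb (lkv (y a)) (c a)) := by
  unfold payW
  refine PTime.option_casesOn
    (f := fun a => tb.find? (fun e => decide (e.1 = ((c a).headD [], (c a).tail.map (lkv (y a))))))
    (g := fun _ => (0 : ℕ))
    (h := fun _ (e : (List Bool × List ℕ) × ℕ) => e.2) ?_ (PTime.const _)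
    (PTime.snd.comp PTime.snd)
  refine PTime.find? (l := fun _ => tb) (p := fun a (e : (List Bool × List ℕ) × ℕ) =>
    decide (e.1 = ((c a).headD [], (c a).tail.map (lkv (y a))))) (PTime.const tb) ?_
  have h1 : PTime (fun a => ((c a).headD [], (c a).tail.map (lkv (y a)))) :=
    (PTime.headD hc (PTime.const [])).pair
      (PTime.map (f := fun a w => lkv (y a) w) (PTime.tail hc)
        (lkv_ptime (hy.comp PTime.fst) PTime.snd))
  exact PTime.eq (PTime.fst.comp PTime.snd) (h1.comp PTime.fst)

theorem asc_ptime {α : Type} [SCode α] {G : α → List (List (List Bool))} {w : α → List Bool}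
    (hG : PTime G) (hw : PTime w) : PTime (fun a => asc (G a) (w a)) := by
  unfold asc
  have h1 : PTime (fun a => (G a).flatMap List.tail) :=
    PTime.flatMap (f := fun _ (c : List (List Bool)) => c.tail) hG (PTime.tail PTime.snd)
  refine PTime.map (f := fun a (p : List Bool × ℕ) => (p.1, (valsU (w a)).getD p.2 0))
    (PTime.zipIdx h1) ?_
  exact (PTime.fst.comp PTime.snd).pair (PTime.getD (PTime.snd.comp PTime.snd)
    (valsU_ptime.comp (hw.comp PTime.fst)) (PTime.const 0))

theorem valX_ptime {α : Type} [SCode α] (tb : TabV) {G : α → List (List (List Bool))}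
    {w : α → List Bool} (hG : PTime G) (hw : PTime w) : PTime (fun a => valX tb (G a) (w a)) := by
  have h : PTime (fun a => ((G a).flatMap
      (fun c => List.replicate (payW tb (lkv (asc (G a) (w a))) c) ())).length) := by
    refine PTime.length (PTime.flatMap
      (f := fun a c => List.replicate (payW tb (lkv (asc (G a) (w a))) c) ()) hG ?_)
    exact PTime.replicate (payW_lkv_ptime tb (asc_ptime (hG.comp PTime.fst) (hw.comp PTime.fst))
      PTime.snd) (PTime.const ())
  refine h.of_eq fun a => ?_
  unfold valX
  rw [List.length_flatMap]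
  simp only [List.length_replicate]

/-! ### Separators from search -/

section

variable {d g : ℕ} {ar : Fin g → ℕ}

/-- the answer computed from an assignment -/
def outM (tb : TabV) (p q : ℕ) (z : List Bool × List Bool) : List Bool :=
  [decide (q * thI z.1 ≤ q * valX tb (parseW z.1).tail z.2 + p * thI z.1)]

theorem outM_ptime (tb : TabV) (p q : ℕ) : PTime (outM tb p q) := by
  unfold outM
  have ht : PTime (fun z : List Bool × List Bool => thI z.1) := thI_ptime.comp PTime.fst
  have hc : PTime (fun z : List Bool × List Bool => valX tb (parseW z.1).tail z.2) :=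
    valX_ptime tb (PTime.tail (parseW_ptime.comp PTime.fst)) PTime.snd
  exact PTime.cons (PTime.nat_le (PTime.mul (PTime.const q) ht)
    (PTime.add (PTime.mul (PTime.const q) hc) (PTime.mul (PTime.const p) ht))) (PTime.const [])

/-- A machine that finds near-optimal assignments gives a separator, for every measure `μ` of
instances which is computed in polynomial time from the list of words. -/
theorem sep_of_find_max (ht : TabS) (φ : (i : Fin g) → (Fin (ar i) → Fin d) → ℕ) {p q b : ℕ}
    (hq : 0 < q) (hpq : p ≤ q) (hb : 0 < b) {μ : List (Con ar) → ℕ}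
    {m : List (List (List Bool)) → ℕ} (hm : PTime m) (hmμ : ∀ F : List (Con ar),
      m (F.map wordC) = μ F) (hμ : ∀ F, μ F ≤ (codeC F).length)
    (hs : GFind (codeC (ar := ar)) (fun _ => True) (goodMax φ ((p : ℚ) / (q : ℕ))) μ b) :
    GSep (enM (ar := ar)) (fun _ => True) (YM φ) (NM φ ((p : ℚ) / (q : ℕ)))
      (fun I => μ I.2) b := by
  refine sep_of_find ?_
  have hf : PTime (fun x => encW (parseW x).tail) := encW_ptime (PTime.tail parseW_ptime)
  have hh : PTime (fun x => mydiv (m (parseW x).tail) b) :=
    mydiv_ptime (hm.comp (PTime.tail parseW_ptime)) (PTime.const b)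
  have hx : ∀ (t : ℕ) (F : List (Con ar)),
      parseW (enM (t, F)) = [List.replicate t true] :: F.map wordC := by
    intro t F
    unfold enM
    rw [parseW_encW]
  have hlen : ∀ (t : ℕ) (F : List (Con ar)), (codeC F).length ≤ (enM (t, F)).length := by
    intro t F
    have h1 : enM (t, F) = encW [[List.replicate t true]] ++ codeC F := by
      rw [codeC_eq]
      unfold enM encW
      simp only [List.flatMap_cons, List.flatMap_nil, List.append_nil]
    rw [h1, List.length_append]
    omega
  refine find_transfer (R := d) hf hh (outM_ptime (tabV φ) p q) ?_ ?_ hs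
  · rintro ⟨t, F⟩ _
    exact (hμ F).trans (hlen t F)
  · rintro ⟨t, F⟩ _
    refine ⟨F, trivial, ?_, ?_, ?_, ?_⟩
    · rw [hx, List.tail_cons, codeC_eq]
    · rintro w ⟨a, rfl, ha⟩
      have hth : thI (enM (t, F)) = t := by
        unfold thI
        rw [hx]
        simp
      constructor
      · have h1 := outW_length_le F a
        have h2 := plc_length_le F
        have h3 := hlen t F
        exact h1.trans (Nat.mul_le_mul_left d (by omega))
      · unfold outM
        simp only
        rw [hth, hx, List.tail_cons, valX_eq ht φ F a]
        have hq' : (0 : ℚ) < ((q : ℕ) : ℚ) := by exact_mod_cast hq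
        constructor
        · rintro ⟨a', ha'⟩
          simp only at ha'
          have h1 := ha a'
          have h2 : ((q : ℕ) : ℚ) * ((1 - (p : ℚ) / ((q : ℕ) : ℚ)) * ((valC φ a' F : ℕ) : ℚ)) =
              (((q : ℕ) : ℚ) - (p : ℚ)) * ((valC φ a' F : ℕ) : ℚ) := by
            field_simp
          have h3 := mul_le_mul_of_nonneg_left h1 hq'.le
          rw [h2] at h3
          have h4 : (t : ℚ) ≤ ((valC φ a' F : ℕ) : ℚ) := by exact_mod_cast ha'
          have h5 : (0 : ℚ) ≤ ((q : ℕ) : ℚ) - (p : ℚ) := by
            have : (p : ℚ) ≤ ((q : ℕ) : ℚ) := by exact_mod_cast hpq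
            linarith
          have h6 := mul_le_mul_of_nonneg_left h4 h5
          have h7 : ((q : ℕ) : ℚ) * (t : ℚ) ≤
              ((q : ℕ) : ℚ) * ((valC φ a F : ℕ) : ℚ) + (p : ℚ) * (t : ℚ) := by
            have h8 : (((q : ℕ) : ℚ) - (p : ℚ)) * (t : ℚ) =
              ((q : ℕ) : ℚ) * (t : ℚ) - (p : ℚ) * (t : ℚ) := by ring
            linarith
          have h9 : q * t ≤ q * valC φ a F + p * t := by exact_mod_cast h7
          rw [decide_eq_true h9]
        · intro hN
          have h1 := hN a
          simp only at h1
          rw [lt_frac_iff hq] at h1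
          rw [decide_eq_false (by omega)]
    · rw [hx, List.tail_cons, hmμ, mydiv_eq hb]
    · rw [hx, List.tail_cons, hmμ, mydiv_eq hb]

/-- the number of constraints -/
theorem sep_of_find_length (ht : TabS) (φ : (i : Fin g) → (Fin (ar i) → Fin d) → ℕ)
    {p q b : ℕ} (hq : 0 < q) (hpq : p ≤ q) (hb : 0 < b)
    (hs : GFind (codeC (ar := ar)) (fun _ => True) (goodMax φ ((p : ℚ) / (q : ℕ)))
      List.length b) :
    GSep (enM (ar := ar)) (fun _ => True) (YM φ) (NM φ ((p : ℚ) / (q : ℕ)))
      (fun I => I.2.length) b :=
  sep_of_find_max ht φ hq hpq hb (m := List.length) (PTime.length PTime.id)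
    (fun F => List.length_map _) (fun F => length_le_code F) hs

/-- the number of variables -/
theorem sep_of_find_nvC (ht : TabS) (φ : (i : Fin g) → (Fin (ar i) → Fin d) → ℕ)
    {p q b : ℕ} (hq : 0 < q) (hpq : p ≤ q) (hb : 0 < b)
    (hs : GFind (codeC (ar := ar)) (fun _ => True) (goodMax φ ((p : ℚ) / (q : ℕ))) nvC b) :
    GSep (enM (ar := ar)) (fun _ => True) (YM φ) (NM φ ((p : ℚ) / (q : ℕ)))
      (fun I => nvC I.2) b := by
  refine sep_of_find_max ht φ hq hpq hb
    (m := fun G => (ded (G.flatMap List.tail)).length) ?_ (fun F => nvC_eq F)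
    (fun F => nvC_le F) hs
  exact PTime.length (ded_ptime (PTime.flatMap (f := fun _ (c : List (List Bool)) => c.tail)
    PTime.id (PTime.tail PTime.snd)))

/-- fewer constraints than variables -/
theorem nvC_le_length (F : List (Con ar)) : nvC F ≤ (∑ i, ar i) * F.length := by
  unfold nvC
  refine (List.toFinset_card_le _).trans ?_
  rw [List.length_flatMap]
  induction F with
  | nil => simp
  | cons c F ih =>
    rw [List.map_cons, List.sum_cons, List.length_ofFn, List.length_cons, Nat.mul_succ]
    have h1 : ar c.1 ≤ ∑ i, ar i :=
      Finset.single_le_sum (f := ar) (fun _ _ => Nat.zero_le _) (Finset.mem_univ c.1)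
    omega

end

end Pool.Agent.Lib.MP_87d05f_lc.SP
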