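import Mathlib
import Pool.Agent.Lib.MP_87d05f_lc.OutMachine
import Pool.Agent.Lib.MP_87d05f_lc.SparseMain

set_option autoImplicit false

/-!
# Polynomial-time programs on padded inputs

`pad_machine`: a polynomial-time function applied to an input padded with `2 ^ hgt x` units is
computed in time `C * (x.length + 1) ^ e' * 2 ^ (e * hgt x)`, where the exponent `e` depends only
on the function, not on the two polynomial-time functions that prepare the input.
-/

namespace Pool.Agent.Lib.MP_87d05f_lc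

open Pool.Agent.PolyTime Function Turing Polynomial

theorem eval_mul_two_pow (P : Polynomial ℕ) (a t : ℕ) :
    P.eval (a * 2 ^ t) ≤ P.eval a * 2 ^ (P.natDegree * t) := by
  rw [Polynomial.eval_eq_sum_range, Polynomial.eval_eq_sum_range, Finset.sum_mul]
  refine Finset.sum_le_sum fun i hi => ?_
  have hi' : i ≤ P.natDegree := by
    have := Finset.mem_range.1 hi
    omega
  rw [mul_pow, ← pow_mul, mul_comm t i, mul_assoc]
  refine Nat.mul_le_mul_left _ (Nat.mul_le_mul_left _ ?_)
  exact Nat.pow_le_pow_right (by norm_num) (Nat.mul_le_mul_right t hi')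

theorem sz_replicate_unit (n : ℕ) : sz (List.replicate n ()) = 2 * n + 1 := by
  induction n with
  | zero => rfl
  | succ n ih =>
    rw [List.replicate_succ, sz_cons, ih, sz_unit]
    omega

section pad

variable {σ : Type} [SCode σ]

/-- one doubling step -/
def padStep (p : ℕ × (σ × List Unit)) : ℕ × (σ × List Unit) :=
  (p.1 - 1, (p.2.1, if p.1 - 1 = 0 then p.2.2 else p.2.2 ++ p.2.2))

theorem ptime_padStep : PTime (padStep (σ := σ)) := by
  have h1 : PTime (fun p : ℕ × (σ × List Unit) => p.1 - 1) := PTime.pred PTime.fst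
  have h2 : PTime (fun p : ℕ × (σ × List Unit) => p.2.1) := PTime.fst.comp PTime.snd
  have h3 : PTime (fun p : ℕ × (σ × List Unit) => p.2.2) := PTime.snd.comp PTime.snd
  exact h1.pair (h2.pair (PTime.ite (PTime.isZero h1) h3 (PTime.append h3 h3)))

omit [SCode σ] in
theorem padStep_iterate (s : σ) (h : ℕ) : ∀ i, i ≤ h →
    (padStep (σ := σ))^[i] (h + 1, (s, [()])) = (h + 1 - i, (s, List.replicate (2 ^ i) ())) := by
  intro i
  induction i with
  | zero => intro _; rfl
  | succ i ih =>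
    intro hi
    rw [Function.iterate_succ_apply', ih (by omega)]
    unfold padStep
    simp only
    rw [if_neg (by omega), List.replicate_append_replicate, pow_succ, mul_two]
    congr 1

omit [SCode σ] in
theorem padStep_last (s : σ) (h : ℕ) :
    (padStep (σ := σ))^[h + 1] (h + 1, (s, [()])) = (0, (s, List.replicate (2 ^ h) ())) := by
  rw [Function.iterate_succ_apply', padStep_iterate s h h le_rfl]
  unfold padStep
  simp only
  rw [if_pos (by omega)]
  congr 1
  omega

/-- A polynomial-time function on a padded input. -/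
theorem pad_machine {F : σ × List Unit → List Bool} (hF : PTime F) :
    ∃ e : ℕ, ∀ {init : List Bool → σ} {hgt : List Bool → ℕ}, PTime init → PTime hgt →
      (∀ x, hgt x ≤ x.length) →
      ∃ (C e' : ℕ) (tm : FinTM2) (e₀ : tm.Γ tm.k₀ ≃ Bool) (e₁ : tm.Γ tm.k₁ ≃ Bool),
        ∀ x : List Bool, Nonempty (TM2OutputsInTime tm (x.map e₀.symm)
          (some ((F (init x, List.replicate (2 ^ hgt x) ())).map e₁.symm))
          (C * (x.length + 1) ^ e' * 2 ^ (e * hgt x))) := by
  have hdn : PTime (fun p : ℕ × (σ × List Unit) => decide (p.1 = 0)) := PTime.isZero PTime.fst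
  have hg : PTime (fun p : ℕ × (σ × List Unit) =>
      (decide ((padStep p).1 = 0), padStep p)) := (hdn.comp ptime_padStep).pair ptime_padStep
  obtain ⟨cg, Pg, hcg⟩ := ptime_cmd hg
  have ho : PTime (fun p : ℕ × (σ × List Unit) => F p.2) := hF.comp PTime.snd
  obtain ⟨co, Po, hco⟩ := ptime_cmd ho
  obtain ⟨Pz, hPz⟩ := ho.sz_le
  refine ⟨Pg.natDegree + Po.natDegree + Pz.natDegree, ?_⟩
  intro init hgt hi hh hle
  set e : ℕ := Pg.natDegree + Po.natDegree + Pz.natDegree with he
  have hi' : PTime (fun x : List Bool => ((hgt x + 1, (init x, [()])) : ℕ × (σ × List Unit))) :=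
    (PTime.succ hh).pair (hi.pair (PTime.const [()]))
  obtain ⟨ci, Pi, hci⟩ := ptime_cmd hi'
  obtain ⟨Ps, hPs⟩ := hi.sz_le
  obtain ⟨fg, hfg⟩ : ∃ g : ℕ → ℕ, g = fun L => 2 * L + 10 + Ps.eval (4 * L + 1) := ⟨_, rfl⟩
  have pg : PolyB fg := by
    rw [hfg]
    exact (((PolyB.const 2).mul PolyB.id).add (PolyB.const 10)).add
      (PolyB.eval Ps (((PolyB.const 4).mul PolyB.id).add (PolyB.const 1)))
  obtain ⟨fT, hfT⟩ : ∃ g : ℕ → ℕ, g = fun L => (7 * L + 3) + Pi.eval (4 * L + 1) + 1 +
      ((L + 1) * (Pg.eval (fg L) + 5) + 1) + Po.eval (fg L) + (7 * Pz.eval (fg L) + 2) + 1 :=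
    ⟨_, rfl⟩
  have pT : PolyB fT := by
    rw [hfT]
    exact ((((((((PolyB.const 7).mul PolyB.id).add (PolyB.const 3)).add
      (PolyB.eval Pi (((PolyB.const 4).mul PolyB.id).add (PolyB.const 1)))).add
      (PolyB.const 1)).add (((PolyB.id.add (PolyB.const 1)).mul
        ((PolyB.eval Pg pg).add (PolyB.const 5))).add (PolyB.const 1))).add
      (PolyB.eval Po pg)).add (((PolyB.const 7).mul (PolyB.eval Pz pg)).add
        (PolyB.const 2))).add (PolyB.const 1)
  obtain ⟨C', e', hC'⟩ := pT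
  set c : Cmd St := .seq convCmd (.seq ci (.seq (.push .C true)
    (.seq (.loopT .C (.seq cg flagCmd)) (.seq co decCmd)))) with hc
  refine ⟨C', e', (Flow.compile c).toTM .A .A, Equiv.refl _, Equiv.refl _, ?_⟩
  intro x
  set L : ℕ := x.length with hL
  set h : ℕ := hgt x with hh'
  have hhL : h ≤ L := hle x
  set s0 : ℕ × (σ × List Unit) := (h + 1, (init x, [()])) with hs0
  set B : ℕ := fg L * 2 ^ h with hB
  have h2 : 1 ≤ 2 ^ h := Nat.one_le_two_pow
  have hsz : ∀ i, i ≤ h + 1 → sz ((padStep (σ := σ))^[i] s0) ≤ B := by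
    intro i hi2
    have hsx : sz (init x) ≤ Ps.eval (4 * L + 1) := (hPs x).trans (eval_mono Ps (sz_listBool_le x))
    have hB' : 2 * L + 8 + Ps.eval (4 * L + 1) + 2 * 2 ^ h ≤ B := by
      rw [hB, hfg]
      simp only
      have e1 : (2 * L + 10 + Ps.eval (4 * L + 1)) * 2 ^ h =
          (2 * L + 8 + Ps.eval (4 * L + 1)) * 2 ^ h + 2 * 2 ^ h := by ring
      rw [e1]
      have e2 : (2 * L + 8 + Ps.eval (4 * L + 1)) * 1 ≤
          (2 * L + 8 + Ps.eval (4 * L + 1)) * 2 ^ h := Nat.mul_le_mul_left _ h2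
      omega
    rcases Nat.lt_or_ge h i with h3 | h3
    · obtain rfl : i = h + 1 := by omega
      rw [hs0, padStep_last, sz_pair, sz_pair, sz_nat, sz_replicate_unit]
      omega
    · rw [hs0, padStep_iterate _ _ _ h3, sz_pair, sz_pair, sz_nat, sz_replicate_unit]
      have e3 : 2 ^ i ≤ 2 ^ h := Nat.pow_le_pow_right (by norm_num) h3
      omega
  have r1 := run_conv x
  have r2 := hci x
  have r3 := loop_run (step := padStep (σ := σ)) (dn := fun p => decide (p.1 = 0)) hcg h s0 B
    (fun i hi2 => hsz i (by omega)) (fun i hi1 hi2 => by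
      rw [hs0, padStep_iterate _ _ _ hi2]
      simp only [decide_eq_false_iff_not]
      omega) (by
      rw [hs0, padStep_last]
      simp)
  have r4 := hco ((padStep (σ := σ))^[h + 1] s0)
  have r5 := run_dec (F ((padStep (σ := σ))^[h + 1] s0).2)
  have rp : RunLe (.push .C true) (stk (enc s0).bits [] [] [])
      (stk (enc s0).bits [] [true] []) 1 := by
    simpa using RunLe.push (stk (enc s0).bits [] [] []) .C true
  have hrun := RunLe.seq r1 (RunLe.seq r2 (RunLe.seq rp (RunLe.seq r3 (RunLe.seq r4 r5))))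
  obtain ⟨t, ht, hrun⟩ := hrun
  have hlen : (F ((padStep (σ := σ))^[h + 1] s0).2).length ≤ Pz.eval B := by
    have h6 := (length_le_sz _).trans ((hPz ((padStep (σ := σ))^[h + 1] s0)).trans
      (eval_mono Pz (hsz (h + 1) le_rfl)))
    omega
  have hpow : ∀ d, d ≤ e → 2 ^ (d * h) ≤ 2 ^ (e * h) := fun d hd =>
    Nat.pow_le_pow_right (by norm_num) (Nat.mul_le_mul_right h hd)
  have k1 : Pg.eval B ≤ Pg.eval (fg L) * 2 ^ (e * h) :=
    (eval_mul_two_pow Pg (fg L) h).trans (Nat.mul_le_mul_left _ (hpow _ (by omega)))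
  have k2 : Po.eval B ≤ Po.eval (fg L) * 2 ^ (e * h) :=
    (eval_mul_two_pow Po (fg L) h).trans (Nat.mul_le_mul_left _ (hpow _ (by omega)))
  have k3 : Pz.eval B ≤ Pz.eval (fg L) * 2 ^ (e * h) :=
    (eval_mul_two_pow Pz (fg L) h).trans (Nat.mul_le_mul_left _ (hpow _ (by omega)))
  have hb1 : t + 1 ≤ C' * (L + 1) ^ e' * 2 ^ (e * h) := by
    have e1 : Pi.eval (sz x) ≤ Pi.eval (4 * L + 1) := eval_mono Pi (sz_listBool_le x)
    have e2 := eval_mono Po (hsz (h + 1) le_rfl)
    have e3 : t + 1 ≤ (7 * L + 3) + Pi.eval (4 * L + 1) + 1 +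
        ((h + 1) * (Pg.eval B + 5) + 1) + Po.eval B + (7 * Pz.eval B + 2) + 1 := by
      omega
    have hZ : 1 ≤ 2 ^ (e * h) := Nat.one_le_two_pow
    have e4 : (7 * L + 3) + Pi.eval (4 * L + 1) + 1 +
        ((h + 1) * (Pg.eval B + 5) + 1) + Po.eval B + (7 * Pz.eval B + 2) + 1 ≤
        fT L * 2 ^ (e * h) := by
      rw [hfT]
      simp only
      generalize 2 ^ (e * h) = Z at *
      generalize Pg.eval B = u1 at *
      generalize Po.eval B = u2 at *
      generalize Pz.eval B = u3 at *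
      generalize Pg.eval (fg L) = v1 at *
      generalize Po.eval (fg L) = v2 at *
      generalize Pz.eval (fg L) = v3 at *
      generalize Pi.eval (4 * L + 1) = v4 at *
      have f1 : (h + 1) * (u1 + 5) ≤ (L + 1) * ((v1 + 5) * Z) := by
        refine Nat.mul_le_mul (by omega) ?_
        have : 5 * 1 ≤ 5 * Z := Nat.mul_le_mul_left _ hZ
        have : (v1 + 5) * Z = v1 * Z + 5 * Z := by ring
        omega
      have f2 : (7 * L + 3 + v4 + 1 + 1 + 2 + 1) * 1 ≤ (7 * L + 3 + v4 + 1 + 1 + 2 + 1) * Z :=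
        Nat.mul_le_mul_left _ hZ
      have f3 : (7 * L + 3 + v4 + 1 + ((L + 1) * (v1 + 5) + 1) + v2 + (7 * v3 + 2) + 1) * Z =
          (7 * L + 3 + v4 + 1 + 1 + 2 + 1) * Z + (L + 1) * ((v1 + 5) * Z) + v2 * Z +
            7 * (v3 * Z) := by ring
      rw [f3]
      omega
    exact (e3.trans e4).trans (Nat.mul_le_mul_right _ (hC' L))
  rw [← update_eq_stk, ← update_eq_stk] at hrun
  have hfin := Cmd.outputs c .A .A hrun _ hb1
  have em : ∀ l : List Bool, List.map (Equiv.refl Bool).symm l = l := fun l => List.map_id l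
  have e4 : ∀ x' y' : List Bool, x' = x → y' = F (init x, List.replicate (2 ^ h) ()) →
      Nonempty (TM2OutputsInTime ((Flow.compile c).toTM .A .A) x' (some y')
        (C' * (L + 1) ^ e' * 2 ^ (e * h))) := by
    rintro x' y' rfl rfl
    rw [hs0, padStep_last] at hfin
    exact hfin
  exact e4 _ _ (em x) (em _)

end pad

end Pool.Agent.Lib.MP_87d05f_lc
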