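import Mathlib
import Pool.Agent.Lib.MP_87d05f_lc.SP.Val
import Pool.Agent.Lib.MP_87d05f_lc.SP.P.bn
import Pool.Agent.Lib.MP_87d05f_lc.SP.P.grp
import Pool.Agent.Lib.MP_87d05f_lc.SP.P.grs
import Pool.Agent.Lib.MP_87d05f_lc.SP.P.asp
import Pool.Agent.Lib.MP_87d05f_lc.SP.P.ass
import Pool.Agent.Lib.MP_87d05f_lc.SP.P.cls
import Pool.Agent.Lib.MP_87d05f_lc.SP.P.tab
import Pool.Agent.Lib.MP_87d05f_lc.SP.P.smt
import Pool.Agent.Lib.MP_87d05f_lc.SP.P.sms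
import Pool.Agent.Lib.MP_87d05f_lc.SP.P.smp
import Pool.Agent.Lib.MP_87d05f_lc.SP.P.spm
import Pool.Agent.Lib.MP_87d05f_lc.SP.P.usm
import Pool.Agent.Lib.MP_87d05f_lc.SP.P.nth
import Pool.Agent.Lib.MP_87d05f_lc.SP.P.nsep
import Pool.Agent.Lib.MP_87d05f_lc.SP.P.nfnd

set_option autoImplicit false

/-!
# Assembly of the sparsifier (helper60)
-/

namespace Pool.Agent.Lib.MP_87d05f_lc.SP

/-- the sparsifier -/
theorem spm_of (hp : PotS) (hc : CmbS) : SpmS :=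
  spm (sms cls tab (smt grs hp ass tab) hc) (p_smp (grp bn) asp)

theorem nsep_of (hp : PotS) (hc : CmbS) : NsepS := nsep (usm (spm_of hp hc)) nth

theorem nfnd_of (hp : PotS) (hc : CmbS) : NfndS := nfnd (usm (spm_of hp hc)) nth

end Pool.Agent.Lib.MP_87d05f_lc.SP
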