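import Mathlib
import Pool.Agent.Lib.MP_87d05f_lc.SP.AsmU
import Pool.Agent.Lib.MP_87d05f_lc.SP.P.pot
import Pool.Agent.Lib.MP_87d05f_lc.SP.P.cmb

set_option autoImplicit false

/-!
# The sparsifier (helper60)
-/

namespace Pool.Agent.Lib.MP_87d05f_lc.SP

/-- the sparsifier -/
theorem spmThm : SpmS := spm_of pot cmb

theorem nsepThm : NsepS := nsep_of pot cmb

theorem nfndThm : NfndS := nfnd_of pot cmb

end Pool.Agent.Lib.MP_87d05f_lc.SP
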